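import Pool.Agent.Run7.h136.VI.Base

/-! PIECE AV: the mean of the form of `1/J` at the cut off potential. -/

set_option autoImplicit false
set_option linter.unusedSectionVars false

open scoped BigOperators Matrix
open MeasureTheory ProbabilityTheory

namespace Run7.h136.VI

open Pool.Agent.W788.MFP.Gm (Γ γ)
open Pool.Agent.W788.MFP.Four Pool.Agent.W788.MFP.Form Pool.Agent.W788.BK
open Pool.Agent.Run7.h47 Pool.Agent.Run7.h47.V

variable {d L n ℓ : ℕ} [NeZero L] [NeZero n]

theorem ft_sub (f g : T d L → ℝ) (k : T d L) : ft (fun x => f x - g x) k = ft f k - ft g k := by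
  unfold ft
  rw [← Finset.sum_sub_distrib]
  exact Finset.sum_congr rfl fun x _ => by push_cast; ring

theorem q_sub (m f g : T d L → ℝ) (h : ∀ k, 0 ≤ m k) :
    q m (fun x => f x - g x) ≤ 2 * q m f + 2 * q m g := by
  unfold q
  have hN := inv_pos.2 (NN_pos (d := d) (L := L))
  have h1 : ∑ k, m k * ‖ft (fun x => f x - g x) k‖ ^ 2 ≤
      2 * ∑ k, m k * ‖ft f k‖ ^ 2 + 2 * ∑ k, m k * ‖ft g k‖ ^ 2 := by
    rw [Finset.mul_sum, Finset.mul_sum, ← Finset.sum_add_distrib]
    refine Finset.sum_le_sum fun k _ => ?_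
    rw [ft_sub]
    have h2 := norm_sub_le (ft f k) (ft g k)
    have h3 : ‖ft f k - ft g k‖ ^ 2 ≤ 2 * ‖ft f k‖ ^ 2 + 2 * ‖ft g k‖ ^ 2 := by
      have := norm_nonneg (ft f k - ft g k)
      nlinarith [sq_nonneg (‖ft f k‖ - ‖ft g k‖)]
    nlinarith [h k]
  nlinarith

theorem qc_sub (m : T d L → ℝ) (f g : T d L → ℂ) (h : ∀ k, 0 ≤ m k) :
    qc m (fun x => f x - g x) ≤ 2 * qc m f + 2 * qc m g := by
  unfold qc
  have h1 := q_sub m (fun x => (f x).re) (fun x => (g x).re) h
  have h2 := q_sub m (fun x => (f x).im) (fun x => (g x).im) h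
  simp only [Complex.sub_re, Complex.sub_im]
  linarith

theorem inv_neg (E δ : ℝ) (k : T d L) : (J E δ (-k))⁻¹ = (J E δ k)⁻¹ := by rw [J_neg]

theorem K0 (m : T d L → ℝ) : K m 0 = (NN d L)⁻¹ * ∑ k, m k := by
  unfold K
  congr 1
  exact Finset.sum_congr rfl fun k _ => by rw [e_zero]; simp

/-- the form of the kernel -/
theorem q_ker (m f : T d L → ℝ) (hm : ∀ k, m (-k) = m k) :
    q m f = ∑ x, ∑ y, K m (x - y) * (f x * f y) := by
  rw [← sum_mul_Op m f hm]
  unfold Op
  refine Finset.sum_congr rfl fun x _ => ?_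
  rw [Finset.mul_sum]
  exact Finset.sum_congr rfl fun y _ => by ring

theorem q_single (m : T d L → ℝ) (hm : ∀ k, m (-k) = m k) (a : ℝ) (y : T d L) :
    q m (fun x => if x = y then a else 0) = a ^ 2 * ((NN d L)⁻¹ * ∑ k, m k) := by
  rw [q_ker m _ hm, Finset.sum_eq_single y, Finset.sum_eq_single y]
  · simp only [if_true, sub_self]
    rw [K0]
    ring
  · intro b _ hb
    simp [hb]
  · intro h
    exact absurd (Finset.mem_univ _) h
  · intro b _ hb
    simp [hb]
  · intro h
    exact absurd (Finset.mem_univ _) h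

theorem q_zero (m : T d L → ℝ) : q m (fun _ => 0) = 0 := by
  unfold q ft
  simp

variable {cell : T d L → T d n} {χ : T d n → T d L → ℝ} {M : T d n → Finset (T d n)}

theorem AX_single (hT : Tl d L n ℓ cell χ M) (E δ : ℝ) (y : T d L) :
    AX χ E δ (Pi.single y 1) = (NN d L)⁻¹ * ∑ k : T d L, (J E δ k)⁻¹ := by
  unfold AX
  have h1 : ∀ j, qc (fun k => (J E δ k)⁻¹)
      (fun x => (χ j x : ℂ) * (Pi.single y (1 : ℂ) : T d L → ℂ) x) =
      χ j y ^ 2 * ((NN d L)⁻¹ * ∑ k : T d L, (J E δ k)⁻¹) := by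
    intro j
    unfold qc
    have e1 : (fun x => ((χ j x : ℂ) * (Pi.single y (1 : ℂ) : T d L → ℂ) x).re) =
        fun x => if x = y then χ j y else 0 := by
      funext x
      by_cases hx : x = y
      · subst hx
        simp
      · simp [hx]
    have e2 : (fun x => ((χ j x : ℂ) * (Pi.single y (1 : ℂ) : T d L → ℂ) x).im) =
        fun x => (0 : ℝ) := by
      funext x
      by_cases hx : x = y
      · subst hx
        simp
      · simp [hx]
    rw [e1, e2, q_single _ (inv_neg E δ), q_zero, add_zero]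
  simp only [h1]
  rw [← Finset.sum_mul, hT.sq, one_mul]

theorem AX_le (hT : Tl d L n ℓ cell χ M) (E δ : ℝ) (hδ : 0 < δ) (f : T d L → ℂ) :
    AX χ E δ f ≤ δ⁻¹ * nsq f := by
  unfold AX
  have h1 : ∀ j, qc (fun k => (J E δ k)⁻¹) (fun x => (χ j x : ℂ) * f x) ≤
      δ⁻¹ * ∑ x, χ j x ^ 2 * ‖f x‖ ^ 2 := by
    intro j
    refine (qc_inv_le E δ hδ _).trans (le_of_eq ?_)
    unfold nsq
    congr 1
    refine Finset.sum_congr rfl fun x _ => ?_
    rw [norm_mul, mul_pow, Complex.norm_real, Real.norm_eq_abs, sq_abs]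
  refine (Finset.sum_le_sum fun j _ => h1 j).trans (le_of_eq ?_)
  rw [← Finset.mul_sum, Finset.sum_comm]
  unfold nsq
  congr 1
  refine Finset.sum_congr rfl fun x _ => ?_
  rw [← Finset.sum_mul, hT.sq, one_mul]

theorem AX_nonneg (E δ : ℝ) (hδ : 0 < δ) (f : T d L → ℂ) : 0 ≤ AX χ E δ f := by
  unfold AX
  exact Finset.sum_nonneg fun j _ => qc_nonneg _ _ fun k => (inv_pos.2 (J_pos E δ hδ k)).le

theorem AX_sub (E δ : ℝ) (hδ : 0 < δ) (f g : T d L → ℂ) :
    AX χ E δ (fun x => f x - g x) ≤ 2 * AX χ E δ f + 2 * AX χ E δ g := by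
  unfold AX
  rw [Finset.mul_sum, Finset.mul_sum, ← Finset.sum_add_distrib]
  refine Finset.sum_le_sum fun j _ => ?_
  have h := qc_sub (fun k => (J E δ k)⁻¹) (fun x => (χ j x : ℂ) * f x)
    (fun x => (χ j x : ℂ) * g x) fun k => (inv_pos.2 (J_pos E δ hδ k)).le
  refine le_trans (le_of_eq ?_) h
  congr 1
  funext x
  ring

/-- the form as a quadratic polynomial in the potential -/
theorem AX_poly (E δ : ℝ) (g : T d L → ℂ) (W : T d L → ℝ) :
    AX χ E δ (fun x => (W x : ℂ) * g x) = ∑ j, ∑ x, ∑ y, K (fun k => (J E δ k)⁻¹) (x - y) *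
      (χ j x * χ j y) * ((g x).re * (g y).re + (g x).im * (g y).im) * (W x * W y) := by
  unfold AX
  refine Finset.sum_congr rfl fun j _ => ?_
  unfold qc
  rw [q_ker _ _ (inv_neg E δ), q_ker _ _ (inv_neg E δ), ← Finset.sum_add_distrib]
  refine Finset.sum_congr rfl fun x _ => ?_
  rw [← Finset.sum_add_distrib]
  refine Finset.sum_congr rfl fun y _ => ?_
  simp only [Complex.re_ofReal_mul, Complex.im_ofReal_mul]
  ring

variable {G : T d n → Set (T d L → ℝ)} {p v : ℝ}

theorem cut_meas (hG : Gd cell G p v) : Measurable fun V : T d L → ℝ => cut cell G V := by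
  classical
  refine measurable_pi_lambda _ fun x => ?_
  unfold cut
  exact Measurable.ite (hG.meas _) (measurable_pi_apply x) measurable_const

theorem cut_bd (hG : Gd cell G p v) (hv : 0 ≤ v) (V : T d L → ℝ) (x : T d L) :
    |cut cell G V x| ≤ v := by
  unfold cut
  split_ifs with h
  · exact hG.bd V x h
  · simpa using hv

theorem cut_diff (V : T d L → ℝ) (x : T d L) :
    (V x - cut cell G V x) ^ 2 = (G (cell x))ᶜ.indicator (fun V => V x ^ 2) V := by
  unfold cut
  by_cases h : V ∈ G (cell x)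
  · simp [h]
  · simp [h]

theorem int_diff (hG : Gd cell G p v) (x : T d L) :
    Integrable (fun V : T d L → ℝ => (V x - cut cell G V x) ^ 2) (Γ (T d L)) := by
  simp only [cut_diff]
  exact (int_ev x 2).indicator (hG.meas _).compl

theorem int_poly2 (E δ : ℝ) (g : T d L → ℂ) :
    Integrable (fun V : T d L → ℝ => AX χ E δ (fun x => (V x : ℂ) * g x)) (Γ (T d L)) := by
  simp only [AX_poly]
  refine integrable_finsetSum _ fun j _ => integrable_finsetSum _ fun x _ =>
    integrable_finsetSum _ fun y _ => ?_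
  exact (int_ev2 x y).const_mul _

theorem mean_AX (hT : Tl d L n ℓ cell χ M) (E δ : ℝ) (hδ : 0 < δ) (g : T d L → ℂ)
    (hg : ∀ x, ‖g x‖ ≤ 1) :
    ∫ V, AX χ E δ (fun x => (V x : ℂ) * g x) ∂(Γ (T d L)) ≤
      (NN d L)⁻¹ * (∑ k : T d L, (J E δ k)⁻¹) * NN d L := by
  simp only [AX_poly]
  have hK : 0 ≤ K (fun k : T d L => (J E δ k)⁻¹) 0 := by
    rw [K0]
    exact mul_nonneg (inv_nonneg.2 NN_pos.le) (Finset.sum_nonneg fun k _ =>
      (inv_pos.2 (J_pos E δ hδ k)).le)
  have e1 : ∫ V, (∑ j, ∑ x, ∑ y, K (fun k => (J E δ k)⁻¹) (x - y) *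
      (χ j x * χ j y) * ((g x).re * (g y).re + (g x).im * (g y).im) * (V x * V y)) ∂(Γ (T d L)) =
      ∑ j, ∑ x, K (fun k : T d L => (J E δ k)⁻¹) 0 * (χ j x * χ j x) * ‖g x‖ ^ 2 := by
    rw [integral_finsetSum _ fun j _ => integrable_finsetSum _ fun x _ =>
      integrable_finsetSum _ fun y _ => (int_ev2 x y).const_mul _]
    refine Finset.sum_congr rfl fun j _ => ?_
    rw [integral_finsetSum _ fun x _ => integrable_finsetSum _ fun y _ =>
      (int_ev2 x y).const_mul _]
    refine Finset.sum_congr rfl fun x _ => ?_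
    rw [integral_finsetSum _ fun y _ => (int_ev2 x y).const_mul _]
    simp only [integral_const_mul, Exy]
    rw [Finset.sum_eq_single x]
    · rw [if_pos rfl, mul_one, sub_self, ← Complex.normSq_eq_norm_sq, Complex.normSq_apply]
    · intro y _ hy
      rw [if_neg (Ne.symm hy), mul_zero]
    · intro h
      exact absurd (Finset.mem_univ _) h
  rw [e1, Finset.sum_comm]
  have e2 : ∀ x, ∑ j, K (fun k : T d L => (J E δ k)⁻¹) 0 * (χ j x * χ j x) * ‖g x‖ ^ 2 ≤
      K (fun k : T d L => (J E δ k)⁻¹) 0 := by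
    intro x
    have e3 : ∑ j, K (fun k : T d L => (J E δ k)⁻¹) 0 * (χ j x * χ j x) * ‖g x‖ ^ 2 =
        K (fun k : T d L => (J E δ k)⁻¹) 0 * (∑ j, χ j x ^ 2) * ‖g x‖ ^ 2 := by
      rw [Finset.mul_sum, Finset.sum_mul]
      exact Finset.sum_congr rfl fun j _ => by ring
    rw [e3, hT.sq, mul_one]
    have e4 : ‖g x‖ ^ 2 ≤ 1 := pow_le_one₀ (norm_nonneg _) (hg x)
    nlinarith
  refine (Finset.sum_le_sum fun x _ => e2 x).trans (le_of_eq ?_)
  rw [Finset.sum_const, Finset.card_univ, nsmul_eq_mul, card_T, K0]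
  ring

theorem av : S_AV := by
  intro d L n ℓ _ _ cell χ M hT G p v hG hp hv E δ hδ g hg
  have hng : nsq g ≤ NN d L := by
    unfold nsq
    rw [← card_T, ← nsmul_one, ← Finset.card_univ, ← Finset.sum_const]
    exact Finset.sum_le_sum fun x _ => pow_le_one₀ (norm_nonneg _) (hg x)
  have hpoly := fun V : T d L → ℝ => AX_poly (χ := χ) E δ g (cut cell G V)
  have hmeas : Measurable fun V : T d L → ℝ => AX χ E δ (fun x => (cut cell G V x : ℂ) * g x) := by
    simp only [hpoly]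
    refine Finset.measurable_sum _ fun j _ => Finset.measurable_sum _ fun x _ =>
      Finset.measurable_sum _ fun y _ => ?_
    have hc := cut_meas hG
    exact (((measurable_pi_apply x).comp hc).mul ((measurable_pi_apply y).comp hc)).const_mul _
  have hint : Integrable (fun V => AX χ E δ (fun x => (cut cell G V x : ℂ) * g x))
      (Γ (T d L)) := by
    refine Integrable.mono' (integrable_const (δ⁻¹ * (v ^ 2 * NN d L))) hmeas.aestronglyMeasurable
      (Filter.Eventually.of_forall fun V => ?_)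
    rw [Real.norm_of_nonneg (AX_nonneg E δ hδ _)]
    refine (AX_le hT E δ hδ _).trans ?_
    apply mul_le_mul_of_nonneg_left _ (inv_nonneg.2 hδ.le)
    unfold nsq
    rw [← card_T, mul_comm, ← nsmul_eq_mul, ← Finset.card_univ, ← Finset.sum_const]
    refine Finset.sum_le_sum fun x _ => ?_
    rw [norm_mul, Complex.norm_real, Real.norm_eq_abs]
    apply pow_le_pow_left₀ (by positivity)
    have h1 := cut_bd hG hv V x
    have h2 := hg x
    nlinarith [abs_nonneg (cut cell G V x), norm_nonneg (g x)]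
  refine ⟨AX_single hT E δ, (AX_le hT E δ hδ g).trans
    (mul_le_mul_of_nonneg_left hng (inv_nonneg.2 hδ.le)), hint, ?_⟩
  have hI1 := int_poly2 (χ := χ) E δ g
  have hI2 : Integrable (fun V : T d L → ℝ => δ⁻¹ * ∑ x, (V x - cut cell G V x) ^ 2)
      (Γ (T d L)) :=
    (integrable_finsetSum _ fun x _ => int_diff hG x).const_mul _
  have hle : ∀ V : T d L → ℝ, AX χ E δ (fun x => (cut cell G V x : ℂ) * g x) ≤
      2 * AX χ E δ (fun x => (V x : ℂ) * g x) +
        2 * (δ⁻¹ * ∑ x, (V x - cut cell G V x) ^ 2) := by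
    intro V
    have h1 := AX_sub (χ := χ) E δ hδ (fun x => (V x : ℂ) * g x)
      (fun x => ((V x - cut cell G V x : ℝ) : ℂ) * g x)
    have h2 : (fun x => (V x : ℂ) * g x - ((V x - cut cell G V x : ℝ) : ℂ) * g x) =
        fun x => (cut cell G V x : ℂ) * g x := by
      funext x
      push_cast
      ring
    rw [h2] at h1
    have h3 := AX_le hT E δ hδ (fun x => ((V x - cut cell G V x : ℝ) : ℂ) * g x)
    have h4 : nsq (fun x => ((V x - cut cell G V x : ℝ) : ℂ) * g x) ≤
        ∑ x, (V x - cut cell G V x) ^ 2 := by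
      unfold nsq
      refine Finset.sum_le_sum fun x _ => ?_
      rw [norm_mul, mul_pow, Complex.norm_real, Real.norm_eq_abs, sq_abs]
      have h5 : ‖g x‖ ^ 2 ≤ 1 := pow_le_one₀ (norm_nonneg _) (hg x)
      nlinarith [sq_nonneg (V x - cut cell G V x)]
    have h5 := mul_le_mul_of_nonneg_left h4 (inv_nonneg.2 hδ.le)
    linarith
  have h1 := integral_mono hint ((hI1.const_mul 2).add (hI2.const_mul 2)) hle
  refine h1.trans ?_
  have h2 : ∫ V, ((fun V : T d L → ℝ => 2 * AX χ E δ (fun x => (V x : ℂ) * g x)) +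
      fun V => 2 * (δ⁻¹ * ∑ x, (V x - cut cell G V x) ^ 2)) V ∂(Γ (T d L)) =
      2 * (∫ V, AX χ E δ (fun x => (V x : ℂ) * g x) ∂(Γ (T d L))) +
      2 * (δ⁻¹ * ∑ x, ∫ V, (V x - cut cell G V x) ^ 2 ∂(Γ (T d L))) := by
    rw [integral_add' (hI1.const_mul 2) (hI2.const_mul 2), integral_const_mul, integral_const_mul,
      integral_const_mul, integral_finsetSum _ fun x _ => int_diff hG x]
  rw [h2]
  have h3 := mean_AX hT E δ hδ g hg
  have h4 : ∑ x, ∫ V, (V x - cut cell G V x) ^ 2 ∂(Γ (T d L)) ≤ Real.sqrt (3 * p) * NN d L := by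
    rw [← card_T, mul_comm, ← nsmul_eq_mul, ← Finset.card_univ, ← Finset.sum_const]
    refine Finset.sum_le_sum fun x _ => ?_
    simp only [cut_diff]
    exact bad x (G (cell x)) (hG.meas _) p (hG.prob _)
  have h5 := mul_le_mul_of_nonneg_left h4 (inv_nonneg.2 hδ.le)
  calc _ ≤ 2 * ((NN d L)⁻¹ * (∑ k : T d L, (J E δ k)⁻¹) * NN d L) +
        2 * (δ⁻¹ * (Real.sqrt (3 * p) * NN d L)) := by linarith
    _ = _ := by ring

end Run7.h136.VI
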