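import Pool.Agent.Run7.h47.V.Iface
import Pool.Agent.Run7.h47.Off
import Pool.Agent.Run7.h47.Cal

/-! Tools for the product Gaussian measure: independence of functions of disjoint sets of
coordinates, restriction to a set of coordinates, moments. -/

set_option autoImplicit false
set_option linter.unusedSectionVars false

open scoped BigOperators Matrix
open MeasureTheory ProbabilityTheory

namespace Run7.h136.VI

open Pool.Agent.W788.MFP.Gm (Γ γ)

section indep

variable {κ : Type*} [Fintype κ]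

/-- Functions of disjoint sets of coordinates are independent. -/
theorem indep (P : κ → Prop) [DecidablePred P] (F1 F2 : (κ → ℝ) → ℝ)
    (h1 : ∀ V V' : κ → ℝ, (∀ x, P x → V x = V' x) → F1 V = F1 V')
    (h2 : ∀ V V' : κ → ℝ, (∀ x, ¬ P x → V x = V' x) → F2 V = F2 V') :
    ∫ V, F1 V * F2 V ∂(Γ κ) = (∫ V, F1 V ∂(Γ κ)) * ∫ V, F2 V ∂(Γ κ) := by
  have hmp := measurePreserving_piEquivPiSubtypeProd (fun _ : κ => γ) P
  set e := MeasurableEquiv.piEquivPiSubtypeProd (fun _ : κ => ℝ) P with he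
  have hmp' : MeasurePreserving e (Γ κ)
      ((Measure.pi fun _ : {x // P x} => γ).prod (Measure.pi fun _ : {x // ¬ P x} => γ)) := hmp
  let f1 : ({x // P x} → ℝ) → ℝ := fun a => F1 (e.symm (a, 0))
  let f2 : ({x // ¬ P x} → ℝ) → ℝ := fun b => F2 (e.symm (0, b))
  have g1 : ∀ V, F1 V = f1 (e V).1 := by
    intro V
    apply h1
    intro x hx
    simp [he, MeasurableEquiv.piEquivPiSubtypeProd, Equiv.piEquivPiSubtypeProd, hx]
  have g2 : ∀ V, F2 V = f2 (e V).2 := by
    intro V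
    apply h2
    intro x hx
    simp [he, MeasurableEquiv.piEquivPiSubtypeProd, Equiv.piEquivPiSubtypeProd, hx]
  have k1 : ∫ V, F1 V ∂(Γ κ) = ∫ a, f1 a ∂(Measure.pi fun _ : {x // P x} => γ) := by
    simp only [g1]
    have := hmp'.integral_comp' (f := e) (fun z => f1 z.1)
    rw [this]
    have h3 := integral_prod_mul (μ := Measure.pi fun _ : {x // P x} => γ)
      (ν := Measure.pi fun _ : {x // ¬ P x} => γ) f1 (fun _ => (1 : ℝ))
    simpa using h3
  have k2 : ∫ V, F2 V ∂(Γ κ) = ∫ a, f2 a ∂(Measure.pi fun _ : {x // ¬ P x} => γ) := by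
    simp only [g2]
    have := hmp'.integral_comp' (f := e) (fun z => f2 z.2)
    rw [this]
    have h3 := integral_prod_mul (μ := Measure.pi fun _ : {x // P x} => γ)
      (ν := Measure.pi fun _ : {x // ¬ P x} => γ) (fun _ => (1 : ℝ)) f2
    simpa using h3
  rw [k1, k2, ← integral_prod_mul]
  have := hmp'.integral_comp' (f := e) (fun z => f1 z.1 * f2 z.2)
  rw [← this]
  simp only [g1, g2]

/-- The marginal of the product measure. -/
theorem marg (P : κ → Prop) [DecidablePred P] (S : Set ({x // P x} → ℝ)) (hS : MeasurableSet S) :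
    (Γ κ).real ((fun V (x : {x // P x}) => V x) ⁻¹' S) =
      (Measure.pi fun _ : {x // P x} => γ).real S := by
  have hmp := measurePreserving_piEquivPiSubtypeProd (fun _ : κ => γ) P
  have hmp' : MeasurePreserving (MeasurableEquiv.piEquivPiSubtypeProd (fun _ : κ => ℝ) P) (Γ κ)
      ((Measure.pi fun _ : {x // P x} => γ).prod (Measure.pi fun _ : {x // ¬ P x} => γ)) := hmp
  have h2 : MeasurePreserving (Prod.fst : ({x // P x} → ℝ) × ({x // ¬ P x} → ℝ) → _)
      ((Measure.pi fun _ : {x // P x} => γ).prod (Measure.pi fun _ : {x // ¬ P x} => γ))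
      (Measure.pi fun _ : {x // P x} => γ) := measurePreserving_fst
  have h3 := h2.comp hmp'
  unfold Measure.real
  congr 1
  rw [← h3.measure_preimage hS.nullMeasurableSet]
  rfl

theorem mom2 : ∫ x, x ^ 2 ∂γ = 1 := by
  have h := Pool.Agent.W788.MFP.Gm.rec 1
  simp only [Nat.reduceAdd, Nat.cast_one, one_mul, Nat.sub_self, pow_zero] at h
  rw [h]
  simp

theorem mom1 : ∫ x, x ∂γ = 0 := by
  simp

theorem mom4 : ∫ x, x ^ 4 ∂γ = 3 := by
  have h := Pool.Agent.W788.MFP.Gm.rec 3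
  have e : (3 - 1 : ℕ) = 2 := rfl
  rw [e, mom2] at h
  norm_num at h
  exact h

theorem ev_mom (x : κ) (n : ℕ) : ∫ V, V x ^ n ∂(Γ κ) = ∫ t, t ^ n ∂γ := by
  have h := measurePreserving_eval (fun _ : κ => γ) x
  have h2 : Measure.map (Function.eval x) (Γ κ) = γ := h.map_eq
  rw [← h2, integral_map (measurable_pi_apply x).aemeasurable (by fun_prop)]

theorem E2 (x : κ) : ∫ V, V x ^ 2 ∂(Γ κ) = 1 := by rw [ev_mom, mom2]

theorem E4 (x : κ) : ∫ V, V x ^ 4 ∂(Γ κ) = 3 := by rw [ev_mom, mom4]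

theorem E1 (x : κ) : ∫ V, V x ∂(Γ κ) = 0 := by
  have := ev_mom x 1
  simp only [pow_one] at this
  rw [this, mom1]

theorem int_ev (x : κ) (n : ℕ) : Integrable (fun V : κ → ℝ => V x ^ n) (Γ κ) := by
  have h := Pool.Agent.W788.MFP.Gm.int_poly (κ := κ) (MvPolynomial.X x ^ n)
  simpa using h

theorem int_ev2 (x y : κ) : Integrable (fun V : κ → ℝ => V x * V y) (Γ κ) := by
  have h := Pool.Agent.W788.MFP.Gm.int_poly (κ := κ) (MvPolynomial.X x * MvPolynomial.X y)
  simpa using h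

theorem Exy [DecidableEq κ] (x y : κ) : ∫ V, V x * V y ∂(Γ κ) = if x = y then 1 else 0 := by
  split_ifs with h
  · subst h
    rw [← E2 x]
    congr 1
    funext V
    ring
  · rw [indep (fun z => z = x) (fun V => V x) (fun V => V y) (fun V V' hV => hV x rfl)
      (fun V V' hV => hV y fun hc => h hc.symm), E1, zero_mul]

/-- the second moment on a bad event -/
theorem bad (x : κ) (G : Set (κ → ℝ)) (hG : MeasurableSet G) (p : ℝ)
    (hp : (Γ κ).real Gᶜ ≤ p) :
    ∫ V, Gᶜ.indicator (fun V => V x ^ 2) V ∂(Γ κ) ≤ Real.sqrt (3 * p) := by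
  rw [integral_indicator hG.compl]
  have h0 : 0 ≤ ∫ V in Gᶜ, V x ^ 2 ∂(Γ κ) := integral_nonneg fun V => sq_nonneg _
  apply Real.le_sqrt_of_sq_le
  have hc : (∫ V in Gᶜ, V x ^ 2 ∂(Γ κ)) ^ 2 ≤
      (∫ V in Gᶜ, (1 : ℝ) ^ 2 ∂(Γ κ)) * ∫ V in Gᶜ, (V x ^ 2) ^ 2 ∂(Γ κ) := by
    -- Cauchy-Schwarz by the discriminant
    set A := ∫ V in Gᶜ, (1 : ℝ) ^ 2 ∂(Γ κ) with hA
    set B := ∫ V in Gᶜ, V x ^ 2 ∂(Γ κ) with hB
    set C := ∫ V in Gᶜ, (V x ^ 2) ^ 2 ∂(Γ κ) with hC
    have i2 : Integrable (fun V : κ → ℝ => V x ^ 2) ((Γ κ).restrict Gᶜ) :=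
      (int_ev x 2).restrict
    have i4 : Integrable (fun V : κ → ℝ => (V x ^ 2) ^ 2) ((Γ κ).restrict Gᶜ) := by
      have := (int_ev x 4).restrict (s := Gᶜ)
      refine this.congr (Filter.Eventually.of_forall fun V => ?_)
      simp only
      ring
    have key : ∀ s : ℝ, 0 ≤ C * (s * s) + (-2 * B) * s + A := by
      intro s
      have h1 : 0 ≤ ∫ V in Gᶜ, (s * V x ^ 2 - 1) ^ 2 ∂(Γ κ) := integral_nonneg fun V => sq_nonneg _
      have h2 : ∫ V in Gᶜ, (s * V x ^ 2 - 1) ^ 2 ∂(Γ κ) = C * (s * s) + (-2 * B) * s + A := by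
        have e1 : ∀ V : κ → ℝ, (s * V x ^ 2 - 1) ^ 2 =
            ((s * s) * (V x ^ 2) ^ 2 + (-2 * s) * V x ^ 2) + 1 ^ 2 := fun V => by ring
        simp only [e1]
        have j4 : Integrable (fun V : κ → ℝ => (s * s) * (V x ^ 2) ^ 2) ((Γ κ).restrict Gᶜ) :=
          i4.const_mul _
        have j2 : Integrable (fun V : κ → ℝ => (-2 * s) * V x ^ 2) ((Γ κ).restrict Gᶜ) :=
          i2.const_mul _
        have j3 : Integrable (fun V : κ → ℝ => (s * s) * (V x ^ 2) ^ 2 + (-2 * s) * V x ^ 2)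
          ((Γ κ).restrict Gᶜ) := j4.add j2
        rw [integral_add j3 (integrable_const _), integral_add j4 j2, integral_const_mul,
          integral_const_mul]
        ring
      linarith
    have := discrim_le_zero key
    unfold discrim at this
    nlinarith
  refine hc.trans ?_
  have h1 : ∫ V in Gᶜ, (1 : ℝ) ^ 2 ∂(Γ κ) = (Γ κ).real Gᶜ := by
    simp
  have h2 : ∫ V in Gᶜ, (V x ^ 2) ^ 2 ∂(Γ κ) ≤ 3 := by
    rw [← E4 x]
    have h3 : ∀ V : κ → ℝ, V x ^ 4 = (V x ^ 2) ^ 2 := fun V => by ring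
    simp only [h3]
    apply setIntegral_le_integral
    · refine (int_ev x 4).congr (Filter.Eventually.of_forall fun V => ?_)
      simp only
      ring
    · exact Filter.Eventually.of_forall fun V => by positivity
  rw [h1]
  have h3 : 0 ≤ (Γ κ).real Gᶜ := measureReal_nonneg
  have h4 : 0 ≤ ∫ V in Gᶜ, (V x ^ 2) ^ 2 ∂(Γ κ) := integral_nonneg fun V => by positivity
  nlinarith

end indep

end Run7.h136.VI
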