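import Pool.Agent.Run7.h136.VI.AV

/-! PIECE DEC: the bad cells change the resolvent very little in the mean. -/

set_option autoImplicit false
set_option linter.unusedSectionVars false

open scoped BigOperators Matrix
open MeasureTheory ProbabilityTheory

namespace Run7.h136.VI

open Pool.Agent.W788.MFP.Gm (Γ γ)
open Pool.Agent.W788.MFP.Four Pool.Agent.W788.MFP.Form Pool.Agent.W788.BK
open Pool.Agent.Run7.h47 Pool.Agent.Run7.h47.V

variable {d L n : ℕ} [NeZero L] [NeZero n]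
variable {cell : T d L → T d n} {G : T d n → Set (T d L → ℝ)} {p v : ℝ}

open Classical in
/-- the cut off potential, set to zero on the cell `C` -/
noncomputable def cutC (cell : T d L → T d n) (G : T d n → Set (T d L → ℝ)) (C : T d n)
    (V : T d L → ℝ) : T d L → ℝ := fun x => if cell x = C then 0 else cut cell G V x

theorem cutC_eq (C : T d n) (V : T d L → ℝ) (h : V ∉ G C) :
    cutC cell G C V = cut cell G V := by
  funext x
  unfold cutC cut
  split_ifs with h1 h2 h2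
  · subst h1
    exact absurd h2 h
  · rfl
  · rfl
  · rfl

theorem cutC_out (hG : Gd cell G p v) (C : T d n) (V V' : T d L → ℝ)
    (h : ∀ x, ¬ cell x = C → V x = V' x) : cutC cell G C V = cutC cell G C V' := by
  funext x
  unfold cutC cut
  split_ifs with h1 h2 h3 h3
  · rfl
  · exact h x h1
  · exfalso
    apply h3
    exact (hG.loc (cell x) V V' fun y hy => h y (by rw [hy]; exact h1)).1 h2
  · exfalso
    apply h2
    exact (hG.loc (cell x) V V' fun y hy => h y (by rw [hy]; exact h1)).2 h3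
  · rfl

theorem cutC_diff (C : T d n) (V : T d L → ℝ) (x : T d L) (h : ¬ cell x = C) :
    cutC cell G C V x - cut cell G V x = 0 := by
  unfold cutC
  rw [if_neg h, sub_self]

theorem cutC_meas (hG : Gd cell G p v) (C : T d n) :
    Measurable fun V : T d L → ℝ => cutC cell G C V := by
  classical
  refine measurable_pi_lambda _ fun x => ?_
  unfold cutC
  by_cases h : cell x = C
  · simp only [if_pos h]
    exact measurable_const
  · simp only [if_neg h]
    exact (measurable_pi_apply x).comp (cut_meas hG)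

variable {X : T d L → ℂ} {c σ : ℝ}

/-- the difference of two resolvents -/
theorem diff_vec (hc : 0 < c) (h : Dis c X) (U V : T d L → ℝ) (f : T d L → ℂ) :
    nsq ((RX X σ U - RX X σ V) *ᵥ f) ≤
      (c ^ 2)⁻¹ * (σ ^ 2 * ∑ x, (U x - V x) ^ 2 * ‖(RX X σ V *ᵥ f) x‖ ^ 2) := by
  rw [RX_sub hc h, Matrix.neg_mulVec, ← Matrix.mulVec_mulVec, ← Matrix.mulVec_mulVec]
  have e0 : nsq (-(RX X σ U *ᵥ ((Matrix.diagonal fun x => (σ : ℂ) * ((U x : ℂ) - V x)) *ᵥ
      (RX X σ V *ᵥ f)))) = nsq (RX X σ U *ᵥ ((Matrix.diagonal fun x => (σ : ℂ) *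
      ((U x : ℂ) - V x)) *ᵥ (RX X σ V *ᵥ f))) := by
    unfold nsq
    simp only [Pi.neg_apply, norm_neg]
  rw [e0]
  refine (RX_nsq hc h σ U _).trans (le_of_eq ?_)
  congr 1
  unfold nsq
  rw [Finset.mul_sum]
  refine Finset.sum_congr rfl fun x _ => ?_
  rw [Matrix.mulVec_diagonal, norm_mul, norm_mul, ← Complex.ofReal_sub, Complex.norm_real,
    Complex.norm_real, mul_pow, mul_pow, Real.norm_eq_abs, Real.norm_eq_abs, sq_abs, sq_abs]
  ring

theorem meas_vec (hc : 0 < c) (h : Dis c X) (W : (T d L → ℝ) → T d L → ℝ) (hW : Measurable W)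
    (f : T d L → ℂ) (x : T d L) : Measurable fun V => (RX X σ (W V) *ᵥ f) x := by
  unfold Matrix.mulVec dotProduct
  refine Finset.measurable_sum _ fun y _ => ?_
  exact ((RX_cont hc h σ x y).measurable.comp hW).mul_const _

theorem vec_bd (hc : 0 < c) (h : Dis c X) (V : T d L → ℝ) (f : T d L → ℂ) (x : T d L) :
    ‖(RX X σ V *ᵥ f) x‖ ^ 2 ≤ (c ^ 2)⁻¹ * nsq f := by
  refine le_trans ?_ (RX_nsq hc h σ V f)
  exact Finset.single_le_sum (f := fun x => ‖(RX X σ V *ᵥ f) x‖ ^ 2)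
    (fun _ _ => by positivity) (Finset.mem_univ x)

theorem int_vec (hc : 0 < c) (h : Dis c X) (W : (T d L → ℝ) → T d L → ℝ) (hW : Measurable W)
    (f : T d L → ℂ) (x : T d L) :
    Integrable (fun V => ‖(RX X σ (W V) *ᵥ f) x‖ ^ 2) (Γ (T d L)) := by
  refine Integrable.mono' (integrable_const ((c ^ 2)⁻¹ * nsq f))
    ((meas_vec hc h W hW f x).norm.pow_const 2).aestronglyMeasurable
    (Filter.Eventually.of_forall fun V => ?_)
  rw [Real.norm_of_nonneg (by positivity)]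
  exact vec_bd hc h _ f x

/-- the comparison of `cutC` and `cut` -/
theorem comp (hc : 0 < c) (h : Dis c X) (hG : Gd cell G p v) (hv : 0 ≤ v) (C : T d n)
    (V : T d L → ℝ) (f : T d L → ℂ) :
    ∑ x ∈ Finset.univ.filter (fun x => cell x = C), ‖(RX X σ (cutC cell G C V) *ᵥ f) x‖ ^ 2 ≤
      (2 * (1 + (c ^ 2)⁻¹ * σ ^ 2 * v ^ 2)) *
      ∑ x ∈ Finset.univ.filter (fun x => cell x = C), ‖(RX X σ (cut cell G V) *ᵥ f) x‖ ^ 2 := by
  set S := Finset.univ.filter (fun x => cell x = C) with hS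
  have h1 := diff_vec (σ := σ) hc h (cutC cell G C V) (cut cell G V) f
  set u := RX X σ (cut cell G V) *ᵥ f with hu
  have h2 : ∑ x, (cutC cell G C V x - cut cell G V x) ^ 2 * ‖u x‖ ^ 2 ≤
      v ^ 2 * ∑ x ∈ S, ‖u x‖ ^ 2 := by
    have e1 : ∑ x, (cutC cell G C V x - cut cell G V x) ^ 2 * ‖u x‖ ^ 2 =
        ∑ x ∈ S, (cutC cell G C V x - cut cell G V x) ^ 2 * ‖u x‖ ^ 2 := by
      symm
      apply Finset.sum_subset (Finset.subset_univ _)
      intro x _ hx
      rw [hS, Finset.mem_filter, not_and] at hx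
      rw [cutC_diff C V x (hx (Finset.mem_univ x))]
      ring
    rw [e1, Finset.mul_sum]
    refine Finset.sum_le_sum fun x hx => ?_
    apply mul_le_mul_of_nonneg_right _ (by positivity)
    have hx' : cell x = C := (Finset.mem_filter.1 hx).2
    have e2 : cutC cell G C V x = 0 := by
      unfold cutC
      rw [if_pos hx']
    rw [e2, zero_sub, neg_sq, ← sq_abs]
    exact pow_le_pow_left₀ (abs_nonneg _) (cut_bd hG hv V x) 2
  have h3 : ∑ x ∈ S, ‖((RX X σ (cutC cell G C V) - RX X σ (cut cell G V)) *ᵥ f) x‖ ^ 2 ≤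
      nsq ((RX X σ (cutC cell G C V) - RX X σ (cut cell G V)) *ᵥ f) :=
    Finset.sum_le_univ_sum_of_nonneg fun x => by positivity
  have h4 : ∑ x ∈ S, ‖(RX X σ (cutC cell G C V) *ᵥ f) x‖ ^ 2 ≤
      2 * ∑ x ∈ S, ‖u x‖ ^ 2 +
      2 * ∑ x ∈ S, ‖((RX X σ (cutC cell G C V) - RX X σ (cut cell G V)) *ᵥ f) x‖ ^ 2 := by
    rw [Finset.mul_sum, Finset.mul_sum, ← Finset.sum_add_distrib]
    refine Finset.sum_le_sum fun x _ => ?_
    have e1 : (RX X σ (cutC cell G C V) *ᵥ f) x = u x +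
        ((RX X σ (cutC cell G C V) - RX X σ (cut cell G V)) *ᵥ f) x := by
      rw [Matrix.sub_mulVec, Pi.sub_apply, ← hu]
      ring
    rw [e1]
    have e2 := norm_add_le (u x) (((RX X σ (cutC cell G C V) - RX X σ (cut cell G V)) *ᵥ f) x)
    have e3 := norm_nonneg (u x + ((RX X σ (cutC cell G C V) - RX X σ (cut cell G V)) *ᵥ f) x)
    nlinarith [sq_nonneg (‖u x‖ - ‖((RX X σ (cutC cell G C V) - RX X σ (cut cell G V)) *ᵥ f) x‖)]
  have hci : 0 ≤ (c ^ 2)⁻¹ := by positivity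
  have h5 := mul_le_mul_of_nonneg_left (mul_le_mul_of_nonneg_left h2 (sq_nonneg σ)) hci
  calc _ ≤ 2 * ∑ x ∈ S, ‖u x‖ ^ 2 + 2 * ((c ^ 2)⁻¹ * (σ ^ 2 * (v ^ 2 * ∑ x ∈ S, ‖u x‖ ^ 2))) := by
        linarith
    _ = _ := by ring

theorem dec : S_DEC := by
  intro d L n _ _ cell G p v hG hp hv X c σ hc h
  have hcm := cut_meas hG
  refine ⟨fun a b => (RX_cont hc h σ a b).measurable.comp hcm, fun f => ?_⟩
  have hci : 0 ≤ (c ^ 2)⁻¹ := by positivity
  set W : (T d L → ℝ) → T d L → ℝ := fun V => cut cell G V with hW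
  -- pointwise bound
  have hpt : ∀ V : T d L → ℝ, nsq ((RX X σ V - RX X σ (W V)) *ᵥ f) ≤
      (c ^ 2)⁻¹ * σ ^ 2 * ∑ x, (G (cell x))ᶜ.indicator (fun V => V x ^ 2) V *
        ‖(RX X σ (cutC cell G (cell x) V) *ᵥ f) x‖ ^ 2 := by
    intro V
    refine (diff_vec hc h V (W V) f).trans (le_of_eq ?_)
    rw [← mul_assoc]
    congr 1
    refine Finset.sum_congr rfl fun x _ => ?_
    rw [cut_diff]
    by_cases hV : V ∈ G (cell x)
    · have : V ∉ (G (cell x))ᶜ := fun hc => hc hV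
      rw [Set.indicator_of_notMem this]
      ring
    · rw [cutC_eq _ V hV]
  have hI : ∀ x, Integrable (fun V => (G (cell x))ᶜ.indicator (fun V => V x ^ 2) V *
        ‖(RX X σ (cutC cell G (cell x) V) *ᵥ f) x‖ ^ 2) (Γ (T d L)) := by
    intro x
    have i1 : Integrable (fun V => (G (cell x))ᶜ.indicator (fun V : T d L → ℝ => V x ^ 2) V)
        (Γ (T d L)) := (int_ev x 2).indicator (hG.meas _).compl
    refine (i1.const_mul ((c ^ 2)⁻¹ * nsq f)).mono' ?_ (Filter.Eventually.of_forall fun V => ?_)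
    · exact (i1.aestronglyMeasurable).mul
        ((meas_vec hc h _ (cutC_meas hG (cell x)) f x).norm.pow_const 2).aestronglyMeasurable
    · have e1 : 0 ≤ (G (cell x))ᶜ.indicator (fun V : T d L → ℝ => V x ^ 2) V :=
        Set.indicator_nonneg (fun V _ => sq_nonneg _) V
      rw [Real.norm_of_nonneg (mul_nonneg e1 (by positivity)), mul_comm]
      exact mul_le_mul_of_nonneg_right (vec_bd hc h _ f x) e1
  have hprod : ∀ x, ∫ V, (G (cell x))ᶜ.indicator (fun V => V x ^ 2) V *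
        ‖(RX X σ (cutC cell G (cell x) V) *ᵥ f) x‖ ^ 2 ∂(Γ (T d L)) ≤
      Real.sqrt (3 * p) * ∫ V, ‖(RX X σ (cutC cell G (cell x) V) *ᵥ f) x‖ ^ 2 ∂(Γ (T d L)) := by
    intro x
    classical
    rw [indep (fun y => cell y = cell x)
      (fun V => (G (cell x))ᶜ.indicator (fun V : T d L → ℝ => V x ^ 2) V)
      (fun V => ‖(RX X σ (cutC cell G (cell x) V) *ᵥ f) x‖ ^ 2)]
    · apply mul_le_mul_of_nonneg_right (bad x (G (cell x)) (hG.meas _) p (hG.prob _))
      exact integral_nonneg fun V => by positivity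
    · intro V V' hV
      have h1 := hG.loc (cell x) V V' hV
      by_cases hVG : V ∈ G (cell x)
      · rw [Set.indicator_of_notMem (Set.notMem_compl_iff.2 hVG),
          Set.indicator_of_notMem (Set.notMem_compl_iff.2 (h1.1 hVG))]
      · have hVG' : V' ∉ G (cell x) := fun hc => hVG (h1.2 hc)
        rw [Set.indicator_of_mem (show V ∈ (G (cell x))ᶜ from hVG),
          Set.indicator_of_mem (show V' ∈ (G (cell x))ᶜ from hVG')]
        rw [hV x rfl]
    · intro V V' hV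
      rw [cutC_out hG (cell x) V V' hV]
  have hIC : ∀ (C : T d n) (x : T d L),
      Integrable (fun V => ‖(RX X σ (cutC cell G C V) *ᵥ f) x‖ ^ 2) (Γ (T d L)) :=
    fun C x => int_vec hc h _ (cutC_meas hG C) f x
  have hIW : ∀ x : T d L, Integrable (fun V => ‖(RX X σ (W V) *ᵥ f) x‖ ^ 2) (Γ (T d L)) :=
    fun x => int_vec hc h _ hcm f x
  -- sum over the cells
  have hcell : ∑ x, ∫ V, ‖(RX X σ (cutC cell G (cell x) V) *ᵥ f) x‖ ^ 2 ∂(Γ (T d L)) ≤
      (2 * (1 + (c ^ 2)⁻¹ * σ ^ 2 * v ^ 2)) * ∫ V, nsq (RX X σ (W V) *ᵥ f) ∂(Γ (T d L)) := by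
    have e1 : ∑ x, ∫ V, ‖(RX X σ (cutC cell G (cell x) V) *ᵥ f) x‖ ^ 2 ∂(Γ (T d L)) =
        ∑ C, ∑ x ∈ Finset.univ.filter (fun x => cell x = C),
          ∫ V, ‖(RX X σ (cutC cell G C V) *ᵥ f) x‖ ^ 2 ∂(Γ (T d L)) := by
      rw [← Finset.sum_fiberwise (Finset.univ) cell]
      refine Finset.sum_congr rfl fun C _ => Finset.sum_congr rfl fun x hx => ?_
      rw [(Finset.mem_filter.1 hx).2]
    have e2 : ∫ V, nsq (RX X σ (W V) *ᵥ f) ∂(Γ (T d L)) =
        ∑ C, ∑ x ∈ Finset.univ.filter (fun x => cell x = C),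
          ∫ V, ‖(RX X σ (W V) *ᵥ f) x‖ ^ 2 ∂(Γ (T d L)) := by
      unfold nsq
      rw [integral_finsetSum _ fun x _ => hIW x, Finset.sum_fiberwise]
    rw [e1, e2, Finset.mul_sum]
    refine Finset.sum_le_sum fun C _ => ?_
    rw [← integral_finsetSum _ fun x _ => hIC C x, ← integral_finsetSum _ fun x _ => hIW x,
      ← integral_const_mul]
    refine integral_mono (integrable_finsetSum _ fun x _ => hIC C x)
      ((integrable_finsetSum _ fun x _ => hIW x).const_mul _) fun V => ?_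
    exact comp hc h hG hv C V f
  have hfin : ∫ V, nsq ((RX X σ V - RX X σ (W V)) *ᵥ f) ∂(Γ (T d L)) ≤
      ∫ V, (c ^ 2)⁻¹ * σ ^ 2 * ∑ x, (G (cell x))ᶜ.indicator (fun V => V x ^ 2) V *
        ‖(RX X σ (cutC cell G (cell x) V) *ᵥ f) x‖ ^ 2 ∂(Γ (T d L)) := by
    refine integral_mono_of_nonneg (Filter.Eventually.of_forall fun V => nsq_nonneg _)
      ((integrable_finsetSum _ fun x _ => hI x).const_mul _) (Filter.Eventually.of_forall hpt)
  refine hfin.trans ?_
  rw [integral_const_mul, integral_finsetSum _ fun x _ => hI x]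
  have h1 : ∑ x, ∫ V, (G (cell x))ᶜ.indicator (fun V => V x ^ 2) V *
        ‖(RX X σ (cutC cell G (cell x) V) *ᵥ f) x‖ ^ 2 ∂(Γ (T d L)) ≤
      Real.sqrt (3 * p) * ∑ x, ∫ V, ‖(RX X σ (cutC cell G (cell x) V) *ᵥ f) x‖ ^ 2
        ∂(Γ (T d L)) := by
    rw [Finset.mul_sum]
    exact Finset.sum_le_sum fun x _ => hprod x
  have h2 : (0 : ℝ) ≤ (c ^ 2)⁻¹ * σ ^ 2 := mul_nonneg hci (sq_nonneg σ)
  calc _ ≤ (c ^ 2)⁻¹ * σ ^ 2 * (Real.sqrt (3 * p) *
        ((2 * (1 + (c ^ 2)⁻¹ * σ ^ 2 * v ^ 2)) * ∫ V, nsq (RX X σ (W V) *ᵥ f) ∂(Γ (T d L)))) :=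
        mul_le_mul_of_nonneg_left (h1.trans
          (mul_le_mul_of_nonneg_left hcell (Real.sqrt_nonneg _))) h2
    _ = _ := by ring

end Run7.h136.VI
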